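import Pool.Agent.Y165.TS.THETA
import Pool.Agent.Y259.TS.Mono
import Pool.Agent.Y89.TU.Stm

/-!
TV-NORM: operators normalising the spin representation act on the generators.
-/

set_option autoImplicit false

open Matrix Finset

namespace Pool.Agent.Y165.TU

open Pool.Agent.Y89.TS Pool.Agent.Y165.TS

theorem t_NORM : Pool.Agent.Y89.TU.S_norm := by
  intro N _ _ n Γ hΓ hn g g' hgg hgg' hgd hgE
  have R := rules Pool.Agent.Y259.TS.t_mono hΓ
  rcases isEmpty_or_nonempty N with hN | hN
  · exact ⟨0, fun i => Subsingleton.elim _ _⟩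
  have hc : (Fintype.card N : ℂ) ≠ 0 := by
    exact_mod_cast Fintype.card_ne_zero
  -- g' commutes with the commutant
  have hgd' : ∀ d, InD Γ d → g' * d = d * g' := by
    intro d hd
    calc g' * d = g' * d * (g * g') := by rw [hgg, mul_one]
      _ = g' * (d * g) * g' := by noncomm_ring
      _ = g' * (g * d) * g' := by rw [hgd d hd]
      _ = (g' * g) * d * g' := by noncomm_ring
      _ = d * g' := by rw [hgg', one_mul]
  -- even monomials commute with the commutant
  have hmd : ∀ s : Finset (Fin n), Even s.card → ∀ d, InD Γ d → mono Γ s * d = d * mono Γ s := by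
    intro s hs d hd
    obtain ⟨k, hk⟩ := hs
    exact R.mono_InD hd k s (by omega)
  -- omega
  have hω : ∀ t : Finset (Fin n), mono Γ univ * mono Γ t = mono Γ t * mono Γ univ := by
    intro t
    rw [R.comm univ t]
    have : Even ((univ : Finset (Fin n)).card * t.card + (univ ∩ t).card) := by
      rw [Finset.univ_inter, Finset.card_univ, Fintype.card_fin]
      have : n * t.card + t.card = (n + 1) * t.card := by ring
      rw [this]
      exact (hn.add_one).mul_right _
    rw [this.neg_one_pow, one_smul]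
  have hωg : mono Γ univ * g = g * mono Γ univ := by
    have h1 := R.key hΓ hgd
    have h2 : mono Γ univ * ((Fintype.card N : ℂ) • g) = ((Fintype.card N : ℂ) • g) * mono Γ univ := by
      rw [h1, Finset.mul_sum, Finset.sum_mul]
      refine Finset.sum_congr rfl fun s _ => ?_
      rw [mul_smul_comm, smul_mul_assoc, hω]
    rw [mul_smul_comm, smul_mul_assoc] at h2
    exact smul_right_injective _ hc h2
  -- conjugation preserves the Lie algebra
  have hsp : ∀ p, g * Eb Γ p * g' ∈ Submodule.span ℂ (Set.range (Eb Γ)) := by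
    intro p
    have h1 := hgE p.1.1 p.1.2 p.2.ne
    refine (Submodule.span_le.2 ?_) h1
    rintro z ⟨i, j, hij, rfl⟩
    rcases lt_or_gt_of_ne hij with hlt | hlt
    · exact Submodule.subset_span ⟨⟨(i, j), hlt⟩, rfl⟩
    · rw [hΓ.anti i j hij]
      exact Submodule.neg_mem _ (Submodule.subset_span ⟨⟨(j, i), hlt⟩, rfl⟩)
  have hcoef : ∀ p, ∃ c : {p : Fin n × Fin n // p.1 < p.2} → ℂ,
      ∑ q, c q • Eb Γ q = g * Eb Γ p * g' := fun p =>
    (Submodule.mem_span_range_iff_exists_fun ℂ).1 (hsp p)
  choose o ho using hcoef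
  have hT : ∀ X, TT Γ (g * X * g') = g * TT Γ X * g' := by
    intro X
    let B : Matrix N N ℂ →ₗ[ℂ] Matrix N N ℂ →ₗ[ℂ] Matrix N N ℂ :=
      LinearMap.mk₂ ℂ (fun A C => A * (g * X * g') * C)
        (fun A A' C => by noncomm_ring) (fun c A C => by simp only [smul_mul_assoc])
        (fun A C C' => by noncomm_ring) (fun c A C => by simp only [mul_smul_comm])
    have h1 := orth (Eb Γ) (fun p => g * Eb Γ p * g') (fun p q => o p q)
      (fun p => (ho p).symm) (-(Fintype.card N : ℂ)) (neg_ne_zero.2 hc) (R.Eb_tr hΓ)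
      (fun p q => by
        have e : g * Eb Γ p * g' * (g * Eb Γ q * g') = g * (Eb Γ p * Eb Γ q * g') := by
          calc _ = g * Eb Γ p * (g' * g) * (Eb Γ q * g') := by noncomm_ring
            _ = _ := by rw [hgg']; noncomm_ring
        rw [e, Matrix.trace_mul_comm, mul_assoc, hgg', mul_one]
        exact R.Eb_tr hΓ p q) B
    have h2 : ∑ q, B (Eb Γ q) (Eb Γ q) = TT Γ (g * X * g') := rfl
    rw [← h2, ← h1]
    unfold TT
    rw [Finset.mul_sum, Finset.sum_mul]
    refine Finset.sum_congr rfl fun p _ => ?_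
    show g * Eb Γ p * g' * (g * X * g') * (g * Eb Γ p * g') = _
    calc _ = g * Eb Γ p * (g' * g) * X * (g' * g) * Eb Γ p * g' := by noncomm_ring
      _ = _ := by rw [hgg']; noncomm_ring
  -- the complement of a point
  have hcompl : ∀ i : Fin n, (({i}ᶜ : Finset (Fin n)).card + 1 = n) := by
    intro i
    rw [Finset.card_compl, Finset.card_singleton, Fintype.card_fin]
    have := i.pos
    omega
  have heven : ∀ i : Fin n, Even ({i}ᶜ : Finset (Fin n)).card := by
    intro i
    have := hcompl i
    obtain ⟨k, hk⟩ := hn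
    exact ⟨k, by omega⟩
  have hωΓ : ∀ i, mono Γ univ * Γ i = mono Γ {i}ᶜ ∨ mono Γ univ * Γ i = -mono Γ {i}ᶜ := by
    intro i
    have h1 := R.mul univ {i}
    rw [R.sing] at h1
    have : symmDiff (univ : Finset (Fin n)) {i} = {i}ᶜ := by
      ext x
      simp [Finset.mem_symmDiff]
    rwa [this] at h1
  -- the images of the complements
  have hY : ∀ i, g * mono Γ {i}ᶜ * g' ∈
      Submodule.span ℂ (Set.range fun a => mono Γ univ * Γ a) := by
    intro i
    set Y := g * mono Γ {i}ᶜ * g' with hYdef
    have hYd : ∀ d, InD Γ d → Y * d = d * Y := by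
      intro d hd
      rw [hYdef]
      calc g * mono Γ {i}ᶜ * g' * d = g * mono Γ {i}ᶜ * (g' * d) := by noncomm_ring
        _ = g * (mono Γ {i}ᶜ * d) * g' := by rw [hgd' d hd]; noncomm_ring
        _ = (g * d) * mono Γ {i}ᶜ * g' := by rw [hmd _ (heven i) d hd]; noncomm_ring
        _ = _ := by rw [hgd d hd]; noncomm_ring
    have hTY : TT Γ Y = lam ({i}ᶜ : Finset (Fin n)) • Y := by
      rw [hYdef, hT, R.TT_mono hΓ (heven i), mul_smul_comm, smul_mul_assoc]
    have h1 := R.key hΓ hYd
    have h2 : Y = (Fintype.card N : ℂ)⁻¹ • ((Fintype.card N : ℂ) • Y) := by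
      rw [smul_smul, inv_mul_cancel₀ hc, one_smul]
    rw [h2, h1]
    refine Submodule.smul_mem _ _ (Submodule.sum_mem _ fun s hs => ?_)
    simp only [Finset.mem_filter, Finset.mem_univ, true_and] at hs
    by_cases h3 : s.card + 1 = n
    · refine Submodule.smul_mem _ _ ?_
      have h4 : sᶜ.card = 1 := by
        rw [Finset.card_compl, Fintype.card_fin]; omega
      obtain ⟨a, ha⟩ := Finset.card_eq_one.1 h4
      have h5 : s = {a}ᶜ := by rw [← ha, compl_compl]
      rw [h5]
      rcases hωΓ a with h6 | h6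
      · rw [← h6]
        exact Submodule.subset_span ⟨a, rfl⟩
      · have h7 : mono Γ {a}ᶜ = -(mono Γ univ * Γ a) := by rw [h6, neg_neg]
        rw [h7]
        exact Submodule.neg_mem _ (Submodule.subset_span ⟨a, rfl⟩)
    · have h4 : (gi Γ s * Y).trace = 0 := by
        have h5 : TT Γ (gi Γ s) = lam s • gi Γ s := by
          rcases gi_or Γ s with h6 | h6
          · rw [h6, R.TT_mono hΓ hs]
          · rw [h6, TT_neg, R.TT_mono hΓ hs, smul_neg]
        have h6 := TT_tr (Γ := Γ) (gi Γ s) Y
        rw [h5, hTY, mul_smul_comm, smul_mul_assoc, Matrix.trace_smul, Matrix.trace_smul,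
          smul_eq_mul, smul_eq_mul] at h6
        have h7 : (lam ({i}ᶜ : Finset (Fin n)) - lam s) * (gi Γ s * Y).trace = 0 := by
          linear_combination h6
        rcases mul_eq_zero.1 h7 with h8 | h8
        · exact absurd (lam_eq hs (hcompl i) (sub_eq_zero.1 h8).symm) h3
        · exact h8
      rw [h4, zero_smul]
      exact Submodule.zero_mem _
  -- the images of the generators
  have hG : ∀ i, g * Γ i * g' ∈ Submodule.span ℂ (Set.range Γ) := by
    intro i
    have h1 : mono Γ univ * (g * Γ i * g') ∈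
        Submodule.span ℂ (Set.range fun a => mono Γ univ * Γ a) := by
      have h2 : mono Γ univ * (g * Γ i * g') = g * (mono Γ univ * Γ i) * g' := by
        calc _ = (mono Γ univ * g) * Γ i * g' := by noncomm_ring
          _ = _ := by rw [hωg]; noncomm_ring
      rw [h2]
      rcases hωΓ i with h3 | h3
      · rw [h3]
        exact hY i
      · rw [h3, mul_neg, neg_mul]
        exact Submodule.neg_mem _ (hY i)
    have h4 : ∀ z ∈ Submodule.span ℂ (Set.range fun a => mono Γ univ * Γ a),
        gi Γ univ * z ∈ Submodule.span ℂ (Set.range Γ) := by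
      intro z hz
      induction hz using Submodule.span_induction with
      | mem x hx =>
        obtain ⟨a, rfl⟩ := hx
        have : gi Γ univ * (mono Γ univ * Γ a) = Γ a := by
          rw [← mul_assoc, R.gi_mul, one_mul]
        show gi Γ univ * (mono Γ univ * Γ a) ∈ _
        rw [this]
        exact Submodule.subset_span ⟨a, rfl⟩
      | zero => rw [mul_zero]; exact Submodule.zero_mem _
      | add x y _ _ hx hy => rw [mul_add]; exact Submodule.add_mem _ hx hy
      | smul c x _ hx => rw [mul_smul_comm]; exact Submodule.smul_mem _ _ hx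
    have h5 := h4 _ h1
    rwa [← mul_assoc, R.gi_mul, one_mul] at h5
  have hcoef2 : ∀ i, ∃ c : Fin n → ℂ, ∑ q, c q • Γ q = g * Γ i * g' := fun i =>
    (Submodule.mem_span_range_iff_exists_fun ℂ).1 (hG i)
  choose o2 ho2 using hcoef2
  exact ⟨fun j i => o2 i j, fun i => (ho2 i).symm⟩

end Pool.Agent.Y165.TU
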